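import Pool.Agent.H19.SYA.TA

/-!
# Counting points of disjoint cells over a finite field
-/

set_option autoImplicit false

namespace Pool.Agent.H35.SYA

open MvPolynomial Pool.Agent.H2.ST Pool.Agent.H15.TG Pool.Agent.H19.SYA

/-- a polynomial with coefficients in a subring comes from the subring -/
theorem lift_poly {k τ : Type} [Field k] (R : Subring k) (p : MvPolynomial τ k)
    (hp : ∀ m, coeff m p ∈ R) : ∃ q : MvPolynomial τ R, map R.subtype q = p := by
  classical
  refine ⟨∑ m ∈ p.support, monomial m ⟨coeff m p, hp m⟩, ?_⟩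
  rw [map_sum]
  conv_rhs => rw [p.as_sum]
  apply Finset.sum_congr rfl
  intro m _
  rw [map_monomial]
  rfl

theorem coeff_mem {k τ : Type} [Field k] [DecidableEq k] (R : Subring k) (p : MvPolynomial τ k)
    (hp : ((p.support.image fun m => coeff m p : Finset k) : Set k) ⊆ R) (m : τ →₀ ℕ) :
    coeff m p ∈ R := by
  by_cases hm : m ∈ p.support
  · exact hp (Finset.mem_coe.2 (Finset.mem_image_of_mem _ hm))
  · rw [notMem_support_iff.1 hm]
    exact R.zero_mem

/-- the data of a cell over a subring and the points over a field -/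
theorem cell_points {k : Type} [Field k] {σ : Type} [Fintype σ] {L : Type} [Field L]
    [Algebra k L] {n t : ℕ} {v : Fin n → L} {Φ : MvPolynomial σ k →ₐ[k] L}
    {a : Fin t → Fin n} {c : Fin t → k} {f : MvPolynomial σ k} (hC : Cel v Φ a c f) :
    ∃ S : Finset k, ∀ R : Subring k, (S : Set k) ⊆ R → ∀ (F : Type) [Field F] (π : R →+* F),
      ∃ (c' : Fin t → F) (ψ : (Fin n → F) → σ → F),
        (∀ g : MvPolynomial σ R, Φ (map R.subtype g) = 0 → ∀ x : Fin n → F,
          (∀ s, x (a s) ≠ c' s) → eval (ψ x) (map π g) = 0) ∧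
        ∀ f0 : MvPolynomial σ R, map R.subtype f0 = f →
          (∀ x : Fin n → F, (∀ s, x (a s) ≠ c' s) → eval (ψ x) (map π f0) ≠ 0) ∧
          ∀ x y : Fin n → F, (∀ s, x (a s) ≠ c' s) → (∀ s, y (a s) ≠ c' s) → ψ x = ψ y →
            x = y := by
  classical
  choose N P hP using hC.pol
  obtain ⟨Nu, Pu, hPu⟩ := hC.unt
  choose Ni Q hQ using hC.inv
  refine ⟨(Finset.univ.biUnion fun j => (P j).support.image fun m => coeff m (P j)) ∪
    (Pu.support.image fun m => coeff m Pu) ∪
    (Finset.univ.biUnion fun s => (Q s).support.image fun m => coeff m (Q s)) ∪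
    Finset.univ.image c, ?_⟩
  intro R hR F _ π
  have hR1 : ∀ j, (((P j).support.image fun m => coeff m (P j) : Finset k) : Set k) ⊆ R := by
    intro j x hx
    apply hR
    simp only [Finset.coe_union, Set.mem_union]
    refine Or.inl (Or.inl (Or.inl ?_))
    exact Finset.mem_coe.2 (Finset.mem_biUnion.2 ⟨j, Finset.mem_univ _, Finset.mem_coe.1 hx⟩)
  have hR2 : ((Pu.support.image fun m => coeff m Pu : Finset k) : Set k) ⊆ R := by
    intro x hx
    apply hR
    simp only [Finset.coe_union, Set.mem_union]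
    exact Or.inl (Or.inl (Or.inr hx))
  have hR3 : ∀ s, (((Q s).support.image fun m => coeff m (Q s) : Finset k) : Set k) ⊆ R := by
    intro s x hx
    apply hR
    simp only [Finset.coe_union, Set.mem_union]
    refine Or.inl (Or.inr ?_)
    exact Finset.mem_coe.2 (Finset.mem_biUnion.2 ⟨s, Finset.mem_univ _, Finset.mem_coe.1 hx⟩)
  have hR4 : ∀ s, c s ∈ R := by
    intro s
    apply hR
    simp only [Finset.coe_union, Set.mem_union]
    exact Or.inr (Finset.mem_coe.2 (Finset.mem_image_of_mem _ (Finset.mem_univ _)))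
  choose P0 hP0 using fun j => lift_poly R (P j) (coeff_mem R (P j) (hR1 j))
  obtain ⟨Pu0, hPu0⟩ := lift_poly R Pu (coeff_mem R Pu hR2)
  choose Q0 hQ0 using fun s => lift_poly R (Q s) (coeff_mem R (Q s) (hR3 s))
  -- the denominator
  set D : L := ∏ l, (v (a l) - algebraMap k L (c l)) with hD
  let d0 : MvPolynomial (Fin n) R := ∏ s, (X (a s) - C ⟨c s, hR4 s⟩)
  let dd : (Fin n → F) → F := fun x => ∏ s, (x (a s) - π ⟨c s, hR4 s⟩)
  have hd0 : aeval v (map R.subtype d0) = D := by
    simp only [d0, map_prod, map_sub, map_X, map_C, aeval_X, hD]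
    apply Finset.prod_congr rfl
    intro l _
    rw [← algebraMap_eq, AlgHom.commutes]
    rfl
  have hdd : ∀ x, eval x (map π d0) = dd x := by
    intro x
    simp only [d0, dd, map_prod, map_sub, map_X, map_C, eval_X, eval_C]
  have hdne : ∀ x : Fin n → F, (∀ s, x (a s) ≠ π ⟨c s, hR4 s⟩) → dd x ≠ 0 := by
    intro x hx
    exact Finset.prod_ne_zero_iff.2 (fun s _ => sub_ne_zero.2 (hx s))
  let ψ : (Fin n → F) → σ → F := fun x j => eval x (map π (P0 j)) / dd x ^ N j
  have hinj : Function.Injective (map R.subtype : MvPolynomial (Fin n) R → _) :=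
    map_injective _ Subtype.val_injective
  have hind : ∀ p q : MvPolynomial (Fin n) R,
      aeval v (map R.subtype p) = aeval v (map R.subtype q) → p = q := by
    intro p q h
    apply hinj
    exact hC.ind h
  have good : ∀ g : MvPolynomial σ R, ∃ (M : ℕ) (G : MvPolynomial (Fin n) R),
      Φ (map R.subtype g) * D ^ M = aeval v (map R.subtype G) ∧
      ∀ x : Fin n → F, (∀ s, x (a s) ≠ π ⟨c s, hR4 s⟩) →
        eval (ψ x) (map π g) * dd x ^ M = eval x (map π G) := by
    intro g
    induction g using MvPolynomial.induction_on with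
    | C e =>
      refine ⟨0, C e, ?_, ?_⟩
      · rw [map_C, map_C, pow_zero, mul_one, ← algebraMap_eq, AlgHom.commutes,
          ← algebraMap_eq, AlgHom.commutes]
      · intro x _
        rw [map_C, map_C, eval_C, eval_C, pow_zero, mul_one]
    | add p q hp hq =>
      obtain ⟨Mp, Gp, h1, h2⟩ := hp
      obtain ⟨Mq, Gq, h3, h4⟩ := hq
      refine ⟨Mp + Mq, Gp * d0 ^ Mq + Gq * d0 ^ Mp, ?_, ?_⟩
      · rw [map_add, map_add, map_add, map_add, map_mul, map_mul, map_mul, map_mul, map_pow,
          map_pow, map_pow, map_pow, hd0, ← h1, ← h3]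
        ring
      · intro x hx
        rw [map_add, map_add, map_add, map_add, map_mul, map_mul, map_mul, map_mul, map_pow,
          map_pow, map_pow, map_pow, hdd, ← h2 x hx, ← h4 x hx]
        ring
    | mul_X p j hp =>
      obtain ⟨Mp, Gp, h1, h2⟩ := hp
      refine ⟨Mp + N j, Gp * P0 j, ?_, ?_⟩
      · rw [map_mul, map_mul, map_mul, map_mul, map_X, ← h1, hP0 j, ← hP j]
        ring
      · intro x hx
        rw [map_mul, map_mul, map_mul, map_mul, map_X, eval_X, ← h2 x hx]
        have h3 : ψ x j * dd x ^ N j = eval x (map π (P0 j)) :=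
          div_mul_cancel₀ _ (pow_ne_zero _ (hdne x hx))
        rw [← h3]
        ring
  refine ⟨fun s => π ⟨c s, hR4 s⟩, ψ, ?_, ?_⟩
  · intro g hg x hx
    obtain ⟨M, G, h1, h2⟩ := good g
    rw [hg, zero_mul] at h1
    have h3 : G = 0 := hind G 0 (by rw [← h1, map_zero, map_zero])
    have h4 := h2 x hx
    rw [h3, map_zero, map_zero] at h4
    exact (mul_eq_zero.1 h4).resolve_right (pow_ne_zero _ (hdne x hx))
  · intro f0 hf0
    obtain ⟨M, G, h1, h2⟩ := good f0
    rw [hf0] at h1
    have hne : ∀ x : Fin n → F, (∀ s, x (a s) ≠ π ⟨c s, hR4 s⟩) →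
        eval (ψ x) (map π f0) ≠ 0 := by
      intro x hx h0
      have h3 : G * Pu0 = d0 ^ (M + Nu) := by
        apply hind
        rw [map_mul, map_mul, map_pow, map_pow, hd0, ← h1, hPu0, pow_add, ← hPu]
        ring
      have h4 := h2 x hx
      rw [h0, zero_mul] at h4
      have h5 := congrArg (fun p => eval x (map π p)) h3
      simp only [map_mul, map_pow] at h5
      rw [← h4, zero_mul, hdd] at h5
      exact pow_ne_zero _ (hdne x hx) h5.symm
    have hval : ∀ (x : Fin n → F), (∀ s, x (a s) ≠ π ⟨c s, hR4 s⟩) → ∀ s,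
        x s * eval (ψ x) (map π f0) ^ Ni s = eval (ψ x) (map π (Q0 s)) := by
      intro x hx s
      obtain ⟨M', H, h3, h4⟩ := good (Q0 s)
      rw [hQ0 s, ← hQ s] at h3
      have h5 : X s * G ^ Ni s * d0 ^ M' = H * d0 ^ (M * Ni s) := by
        apply hind
        rw [map_mul, map_mul, map_mul, map_mul, map_mul, map_mul, map_pow, map_pow, map_pow,
          map_pow, map_pow, map_pow, map_X, aeval_X, hd0, ← h1, ← h3]
        ring
      have h6 := congrArg (fun p => eval x (map π p)) h5
      simp only [map_mul, map_pow, map_X, eval_X] at h6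
      rw [hdd, ← h2 x hx, ← h4 x hx] at h6
      have h7 : dd x ^ (M' + M * Ni s) ≠ 0 := pow_ne_zero _ (hdne x hx)
      apply mul_right_cancel₀ h7
      rw [pow_add]
      calc x s * eval (ψ x) (map π f0) ^ Ni s * (dd x ^ M' * dd x ^ (M * Ni s)) =
          x s * (eval (ψ x) (map π f0) * dd x ^ M) ^ Ni s * dd x ^ M' := by ring
        _ = eval (ψ x) (map π (Q0 s)) * dd x ^ M' * dd x ^ (M * Ni s) := h6
        _ = _ := by ring
    refine ⟨hne, ?_⟩
    intro x y hx hy hxy
    funext s
    have h3 := hval x hx s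
    have h4 := hval y hy s
    rw [← hxy] at h4
    rw [← h4] at h3
    exact mul_right_cancel₀ (pow_ne_zero _ (hne x hx)) h3

theorem pf_AGL (hAGF : T_AGF) : T_AGL := by
  intro k _ σ _ r L _ _ n t v Φ a c f hC h0
  classical
  choose S hS using fun i => cell_points (hC i)
  obtain ⟨F, hF, hfin, ⟨π⟩⟩ := hAGF k ((Finset.univ.biUnion S) ∪
    (Finset.univ.biUnion fun i => (f i).support.image fun m => coeff m (f i)))
  have hFF : Fintype F := Fintype.ofFinite F
  set R : Subring k := Subring.closure (((Finset.univ.biUnion S) ∪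
    (Finset.univ.biUnion fun i => (f i).support.image fun m => coeff m (f i)) : Finset k) :
      Set k) with hR
  have hR1 : ∀ i, (S i : Set k) ⊆ R := by
    intro i x hx
    apply Subring.subset_closure
    simp only [Finset.coe_union, Set.mem_union]
    exact Or.inl (Finset.mem_coe.2 (Finset.mem_biUnion.2
      ⟨i, Finset.mem_univ _, Finset.mem_coe.1 hx⟩))
  have hR2 : ∀ i, (((f i).support.image fun m => coeff m (f i) : Finset k) : Set k) ⊆ R := by
    intro i x hx
    apply Subring.subset_closure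
    simp only [Finset.coe_union, Set.mem_union]
    exact Or.inr (Finset.mem_coe.2 (Finset.mem_biUnion.2
      ⟨i, Finset.mem_univ _, Finset.mem_coe.1 hx⟩))
  choose f0 hf0 using fun i => lift_poly R (f i) (coeff_mem R (f i) (hR2 i))
  choose c' ψ hz hf using fun i => hS i R (hR1 i) F π
  refine ⟨F, hF, hFF, c', ?_⟩
  have hinj : Function.Injective
      (fun p : Σ i, {x : Fin (n i) → F // ∀ s, x (a i s) ≠ c' i s} => ψ p.1 p.2.1) := by
    have hlt : ∀ i j, i < j → ∀ (x : {x : Fin (n i) → F // ∀ s, x (a i s) ≠ c' i s})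
        (y : {x : Fin (n j) → F // ∀ s, x (a j s) ≠ c' j s}), ψ i x.1 ≠ ψ j y.1 := by
      intro i j hij x y h1
      apply (hf i (f0 i) (hf0 i)).1 x.1 x.2
      rw [h1]
      exact hz j (f0 i) (by rw [hf0 i]; exact h0 i j hij) y.1 y.2
    rintro ⟨i, x⟩ ⟨j, y⟩ hxy
    simp only at hxy
    rcases lt_trichotomy i j with hij | hij | hij
    · exact absurd hxy (hlt i j hij x y)
    · subst hij
      have h1 := (hf i (f0 i) (hf0 i)).2 x.1 y.1 x.2 y.2 hxy
      rw [Subtype.ext h1]
    · exact absurd hxy.symm (hlt j i hij y x)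
  have h1 := Nat.card_le_card_of_injective _ hinj
  rw [Nat.card_sigma, Nat.card_eq_fintype_card (α := σ → F), Fintype.card_fun] at h1
  exact h1

end Pool.Agent.H35.SYA
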